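import Pool.Agent.Y264.WB.Main
import Pool.Agent.TH784.WbMain

/-!
# The probability on `ℓ^∞`
-/

set_option autoImplicit false

open MeasureTheory Set Filter Topology
open scoped ENNReal

namespace Pool.Agent.Y264.WB

/-- the measure of the starting library (`Pool.Agent.TH784.WB.muW`) on the weakly Borel sets of
`ℓ^∞` -/
theorem base : ∃ m : @Measure (lp (fun _ : ℕ => ℝ) ∞) (wB (lp (fun _ : ℕ => ℝ) ∞)),
    m univ = 1 ∧ ¬ @Ext (lp (fun _ : ℕ => ℝ) ∞) (borel _) (wB _) m := by
  set X := (lp (fun _ : ℕ => ℝ) ∞)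
  have hsymm : @Measurable (WeakSpace ℝ X) X (borel _) (wB X)
      (toWeakSpace ℝ X).symm := by
    refine @measurable_generateFrom (WeakSpace ℝ X) X (borel _) _ _ ?_
    intro U hU
    have h : ⇑(toWeakSpace ℝ X).symm ⁻¹' U = toWeakSpace ℝ X '' U :=
      ((toWeakSpace ℝ X).toEquiv.image_eq_preimage_symm U).symm
    rw [h]
    exact Pool.Agent.TH784.WB.open_meas hU
  have hto : @Measurable X (WeakSpace ℝ X) (wB X) (borel _) (toWeakSpace ℝ X) := by
    refine @measurable_generateFrom X (WeakSpace ℝ X) (wB X) _ _ ?_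
    intro V hV
    refine MeasurableSpace.measurableSet_generateFrom ?_
    change IsOpen (toWeakSpace ℝ X '' (toWeakSpace ℝ X ⁻¹' V))
    rw [image_preimage_eq V (toWeakSpace ℝ X).surjective]
    exact hV
  have hmap : ∀ E : Set X, MeasurableSet[wB X] E →
      @Measure.map _ _ (borel _) (wB X) (toWeakSpace ℝ X).symm Pool.Agent.TH784.WB.muW E =
        Pool.Agent.TH784.WB.muW ((toWeakSpace ℝ X).symm ⁻¹' E) := by
    intro E hE
    exact @Measure.map_apply _ _ (borel _) (wB X) _ _ hsymm _ hE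
  refine ⟨@Measure.map _ _ (borel _) (wB X) (toWeakSpace ℝ X).symm
    Pool.Agent.TH784.WB.muW, ?_, ?_⟩
  · rw [hmap univ (@MeasurableSet.univ _ (wB X)), preimage_univ]
    exact Pool.Agent.TH784.WB.muW_univ
  rintro ⟨ν, hν⟩
  have huniv : ν univ = 1 := by
    rw [hν univ (@MeasurableSet.univ _ (wB X)),
      hmap univ (@MeasurableSet.univ _ (wB X)), preimage_univ]
    exact Pool.Agent.TH784.WB.muW_univ
  refine Pool.Agent.TH784.WB.no_ext ν ?_ ?_
  · exact @IsProbabilityMeasure.mk _ (borel _) ν huniv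
  intro F hF
  have hE : MeasurableSet[wB X] ((toWeakSpace ℝ X) ⁻¹' F) := hto hF
  rw [hν _ hE, hmap _ hE]
  congr 1

end Pool.Agent.Y264.WB
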