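import Pool.Agent.Y264.WB.Base

/-!
# Weakly compact sets, and the final theorem
-/

set_option autoImplicit false

open MeasureTheory Set Filter Topology
open scoped ENNReal

namespace Pool.Agent.Y264.WB

/-- compact sets on which a sequence of continuous functions separates the points are separable -/
theorem cpt_dense {Z : Type} [TopologicalSpace Z] {K : Set Z} (hK : IsCompact K)
    (e : Z → ℕ → ℝ) (he : Continuous e) (hi : InjOn e K) :
    ∃ Q : Set Z, Q.Countable ∧ K ⊆ closure Q := by
  haveI : CompactSpace K := isCompact_iff_compactSpace.mp hK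
  have hec : Continuous fun x : K => e x := he.comp continuous_subtype_val
  have hemb := hec.isClosedEmbedding (fun a b hab => Subtype.ext (hi a.2 b.2 hab))
  haveI : SecondCountableTopology K := hemb.isEmbedding.secondCountableTopology
  obtain ⟨Q, hQc, hQd⟩ := TopologicalSpace.exists_countable_dense K
  refine ⟨Subtype.val '' Q, hQc.image _, ?_⟩
  intro x hx
  have h1 : (⟨x, hx⟩ : K) ∈ closure Q := hQd _
  exact image_closure_subset_closure_image continuous_subtype_val ⟨_, h1, rfl⟩

section

variable {Z : Type} [NormedAddCommGroup Z] [NormedSpace ℝ Z]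

/-- if countably many functionals separate the points, then weakly compact sets are separable -/
theorem sep_of_compact (f : ℕ → StrongDual ℝ Z) (hf : ∀ z, (∀ n, f n z = 0) → z = 0) {K : Set Z}
    (hK : @IsCompact Z (wt Z) K) : TopologicalSpace.IsSeparable K := by
  have hfc : ∀ n, @Continuous Z ℝ (wt Z) _ (fun z => f n z) := by
    intro n
    rw [continuous_iff_le_induced, wt_eq]
    exact iInf_le _ (f n)
  obtain ⟨Q, hQ, hKQ⟩ := @cpt_dense Z (wt Z) K hK (fun z n => f n z)
    (@continuous_pi Z ℕ (fun _ => ℝ) (wt Z) _ _ hfc) (fun a _ b _ hab => by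
      have h1 : ∀ n, f n (a - b) = 0 := fun n => by
        rw [map_sub, sub_eq_zero]
        exact congrFun hab n
      exact sub_eq_zero.mp (hf _ h1))
  set L : Submodule ℝ Z := (Submodule.span ℝ Q).topologicalClosure with hL
  have hcl : IsClosed (L : Set Z) := Submodule.isClosed_topologicalClosure _
  have hsep : TopologicalSpace.IsSeparable (L : Set Z) := by
    rw [hL, Submodule.topologicalClosure_coe]
    exact ((hQ.isSeparable).span (R := ℝ)).closure
  refine hsep.mono (hKQ.trans ?_)
  have h2 : Q ⊆ L := fun x hx => Submodule.le_topologicalClosure _ (Submodule.subset_span hx)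
  exact @closure_minimal Z (wt Z) _ _ h2 (closed_of_convex L.convex hcl)

variable {X : Type} [NormedAddCommGroup X] [NormedSpace ℝ X]

/-- the image of a hereditarily non-extendable probability on the unit ball under an affine
embedding -/
theorem image [CompleteSpace Z] {m : @Measure Z (wB Z)} (hm1 : m univ = 1)
    (hmb : m (Metric.closedBall 0 1)ᶜ = 0) (hm : Hered m)
    (hK : ∀ K : Set Z, @IsCompact Z (wt Z) K → m K = 0)
    (T : Z →L[ℝ] X) {c : ℝ} (hc : 0 < c) (hT : ∀ z, c * ‖z‖ ≤ ‖T z‖) (x₀ : X) {r : ℝ}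
    (hr : 0 < r) :
    ∃ μ : @Measure X (wB X), μ univ = 1 ∧ μ (Metric.closedBall x₀ r)ᶜ = 0 ∧ Hered μ ∧
      ∀ K : Set X, IsCompact (toWeakSpace ℝ X '' K) → μ K = 0 := by
  letI : MeasurableSpace Z := wB Z
  letI : MeasurableSpace X := wB X
  set ε : ℝ := r / (‖T‖ + 1) with hε
  have hT1 : 0 < ‖T‖ + 1 := by positivity
  have hε0 : 0 < ε := by positivity
  have hT' : ∀ z, (ε * c) * ‖z‖ ≤ ‖(ε • T) z‖ := by
    intro z
    rw [ContinuousLinearMap.smul_apply, norm_smul, Real.norm_eq_abs, abs_of_pos hε0, mul_assoc]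
    exact mul_le_mul_of_nonneg_left (hT z) hε0.le
  have he1 := emb_weak (ε • T) (mul_pos hε0 hc) hT' x₀
  have he2 := emb_norm (ε • T) (mul_pos hε0 hc) hT' x₀
  have hcw := emb_wt (ε • T) (mul_pos hε0 hc) hT' x₀
  set Φ : Z → X := aff (ε • T) x₀ with hΦ
  refine ⟨m.map Φ, ?_, ?_, ?_, ?_⟩
  · rw [he1.map_apply, preimage_univ, hm1]
  · rw [he1.map_apply]
    refine measure_mono_null ?_ hmb
    intro z hz hzb
    apply hz
    rw [Metric.mem_closedBall, dist_zero_right] at hzb
    rw [Metric.mem_closedBall, dist_eq_norm, hΦ, aff, add_sub_cancel_left,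
      ContinuousLinearMap.smul_apply, norm_smul, Real.norm_eq_abs, abs_of_pos hε0]
    calc ε * ‖T z‖ ≤ ε * (‖T‖ + 1) := by
          refine mul_le_mul_of_nonneg_left ?_ hε0.le
          calc ‖T z‖ ≤ ‖T‖ * ‖z‖ := T.le_opNorm z
            _ ≤ (‖T‖ + 1) * 1 := mul_le_mul (by linarith) hzb (norm_nonneg _) hT1.le
            _ = ‖T‖ + 1 := mul_one _
      _ = r := by rw [hε]; field_simp
  · intro E hE hE0 ν hν
    rw [he1.map_apply] at hE0
    obtain ⟨ν', hν'⟩ := transfer he1 he2 m hE ⟨ν, fun F hF => by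
      rw [hν F hF, Measure.restrict_apply hF]⟩
    refine hm _ (he1.measurable hE) hE0 ν' fun F hF => ?_
    rw [hν' F hF, Measure.restrict_apply hF]
  · intro K hKc
    have h1 : @IsCompact X (wt X) K := by
      have h2 : @IsInducing X (WeakSpace ℝ X) (wt X) _ (toWeakSpace ℝ X) :=
        @IsInducing.mk X (WeakSpace ℝ X) (wt X) _ _ rfl
      exact (@IsInducing.isCompact_iff X (WeakSpace ℝ X) (wt X) _ _ _ h2).mpr hKc
    rw [he1.map_apply]
    exact hK _ (@IsClosedEmbedding.isCompact_preimage Z X (wt Z) (wt X) _ hcw K h1)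

end

end Pool.Agent.Y264.WB
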