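import Mathlib

/-!
# Extensions of measures to a larger sigma-algebra
-/

set_option autoImplicit false

open MeasureTheory Set Filter Topology
open scoped ENNReal

namespace Pool.Agent.Y264.WB

section

/-- the measure `m` extends to the sigma-algebra `mN` -/
def Ext {α : Type} (mN : MeasurableSpace α) [mW : MeasurableSpace α] (m : @Measure α mW) : Prop :=
  ∃ ν : @Measure α mN, ∀ F : Set α, MeasurableSet[mW] F → ν F = m F

variable {α : Type} {mN : MeasurableSpace α} [mW : MeasurableSpace α] (hle : mW ≤ mN)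

include hle

lemma Ext.restrict {m : Measure α} (hm : Ext mN m) {E : Set α} (hE : MeasurableSet E) :
    Ext mN (m.restrict E) := by
  obtain ⟨ν, hν⟩ := hm
  refine ⟨@Measure.restrict α mN ν E, fun F hF => ?_⟩
  rw [@Measure.restrict_apply α mN ν E F (hle F hF), Measure.restrict_apply hF]
  exact hν _ (hF.inter hE)

lemma Ext.sum {ι : Type} {m : ι → Measure α} (hm : ∀ i, Ext mN (m i)) :
    Ext mN (Measure.sum m) := by
  choose ν hν using hm
  refine ⟨@Measure.sum α ι mN ν, fun F hF => ?_⟩
  rw [@Measure.sum_apply α ι mN ν F (hle F hF), Measure.sum_apply _ hF]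
  exact tsum_congr fun i => hν i F hF

lemma Ext.add {m m' : Measure α} (hm : Ext mN m) (hm' : Ext mN m') : Ext mN (m + m') := by
  obtain ⟨ν, hν⟩ := hm
  obtain ⟨ν', hν'⟩ := hm'
  refine ⟨ν + ν', fun F hF => ?_⟩
  rw [@Measure.add_apply α mN, Measure.add_apply, hν F hF, hν' F hF]

omit hle in
lemma ext_zero : Ext mN (0 : Measure α) := ⟨0, fun F _ => by simp⟩

/-- the part of a measure which cannot be extended -/
theorem exhaust (m : Measure α) [IsFiniteMeasure m] (hm : ¬ Ext mN m) :
    ∃ D : Set α, MeasurableSet D ∧ m D ≠ 0 ∧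
      ∀ E : Set α, MeasurableSet E → m (D ∩ E) ≠ 0 → ¬ Ext mN (m.restrict (D ∩ E)) := by
  set S : Set ℝ≥0∞ := {c | ∃ A : Set α, MeasurableSet A ∧ Ext mN (m.restrict A) ∧ c = m A} with hS
  have hne : S.Nonempty := ⟨0, ∅, MeasurableSet.empty, by
    rw [Measure.restrict_empty]; exact ext_zero, by simp⟩
  obtain ⟨u, -, hu, huS⟩ := exists_seq_tendsto_sSup hne (OrderTop.bddAbove S)
  choose A hA hAe hAu using huS
  have hAA : MeasurableSet (⋃ n, A n) := MeasurableSet.iUnion hA
  have hext : Ext mN (m.restrict (⋃ n, A n)) := by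
    rw [← iUnion_disjointed, Measure.restrict_iUnion (disjoint_disjointed A)
      (fun n => MeasurableSet.disjointed hA n)]
    refine Ext.sum hle fun n => ?_
    have h1 := Ext.restrict hle (hAe n) (MeasurableSet.disjointed hA n)
    rwa [Measure.restrict_restrict (MeasurableSet.disjointed hA n),
      inter_eq_left.mpr (disjointed_subset A n)] at h1
  have hsup : sSup S ≤ m (⋃ n, A n) := by
    refine le_of_tendsto hu (Eventually.of_forall fun n => ?_)
    rw [hAu n]
    exact measure_mono (subset_iUnion A n)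
  refine ⟨(⋃ n, A n)ᶜ, hAA.compl, fun h0 => hm ?_, fun E hE hE0 hEx => hE0 ?_⟩
  · have h1 : m.restrict (⋃ n, A n) = m :=
      Measure.restrict_eq_self_of_ae_mem (by
        rw [ae_iff]
        exact h0)
    rwa [h1] at hext
  · have hd : Disjoint (⋃ n, A n) ((⋃ n, A n)ᶜ ∩ E) :=
      disjoint_compl_right.mono_right inter_subset_left
    have hm2 : MeasurableSet ((⋃ n, A n)ᶜ ∩ E) := hAA.compl.inter hE
    have h1 : m ((⋃ n, A n) ∪ ((⋃ n, A n)ᶜ ∩ E)) ∈ S := by
      refine ⟨_, hAA.union hm2, ?_, rfl⟩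
      rw [Measure.restrict_union hd hm2]
      exact Ext.add hle hext hEx
    have h2 := (le_sSup h1).trans hsup
    rw [measure_union hd hm2] at h2
    have h3 : m (⋃ n, A n) ≠ ∞ := measure_ne_top _ _
    have h4 : m (⋃ n, A n) + m ((⋃ n, A n)ᶜ ∩ E) ≤ m (⋃ n, A n) + 0 := by rwa [add_zero]
    exact nonpos_iff_eq_zero.mp ((ENNReal.add_le_add_iff_left h3).mp h4)

end

/-- extensions of the restrictions of an image measure under an embedding for both
sigma-algebras -/
theorem transfer {α β : Type} {nα : MeasurableSpace α} {nβ : MeasurableSpace β}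
    [mα : MeasurableSpace α] [mβ : MeasurableSpace β] {Φ : α → β} (h1 : MeasurableEmbedding Φ)
    (h2 : @MeasurableEmbedding α β nα nβ Φ) (m : Measure α) {E : Set β} (hE : MeasurableSet E)
    (h : Ext nβ ((m.map Φ).restrict E)) : Ext nα (m.restrict (Φ ⁻¹' E)) := by
  obtain ⟨ν, hν⟩ := h
  refine ⟨@Measure.comap α β nα nβ Φ ν, fun F hF => ?_⟩
  rw [@MeasurableEmbedding.comap_apply α β nα nβ Φ h2 ν F, hν _ (h1.measurableSet_image.mpr hF),
    Measure.restrict_apply (h1.measurableSet_image.mpr hF), h1.map_apply,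
    Measure.restrict_apply hF, preimage_inter, preimage_image_eq F h1.injective]

end Pool.Agent.Y264.WB
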