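import Pool.Agent.Y264.WB.Weak

/-!
# Hereditarily non-extendable probabilities on superspaces
-/

set_option autoImplicit false

open MeasureTheory Set Filter Topology
open scoped ENNReal

namespace Pool.Agent.Y264.WB

section

variable {X : Type} [NormedAddCommGroup X] [NormedSpace ℝ X]

/-- no restriction of `μ` to a set of positive measure extends to the norm Borel sets -/
def Hered (μ : @Measure X (wB X)) : Prop :=
  ∀ E : Set X, MeasurableSet[wB X] E → μ E ≠ 0 →
    ∀ ν : @Measure X (borel X), ¬ ∀ F : Set X, MeasurableSet[wB X] F → ν F = μ (F ∩ E)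

lemma not_ext_of {Z : Type} [NormedAddCommGroup Z] [NormedSpace ℝ Z] {m : @Measure Z (wB Z)}
    (h : ¬ @Ext Z (borel Z) (wB Z) m) : ∀ ν : @Measure Z (borel Z),
    ¬ ∀ F : Set Z, MeasurableSet[wB Z] F → ν F = m F := fun ν hν => h ⟨ν, hν⟩

theorem main {Z : Type} [NormedAddCommGroup Z] [NormedSpace ℝ Z] [CompleteSpace Z]
    (m : @Measure Z (wB Z)) (hm1 : m univ = 1) (hm : ¬ @Ext Z (borel Z) (wB Z) m)
    (T : Z →L[ℝ] X) {c : ℝ} (hc : 0 < c) (hT : ∀ z, c * ‖z‖ ≤ ‖T z‖) (x₀ : X) {r : ℝ}
    (hr : 0 < r) :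
    ∃ μ : @Measure X (wB X), μ univ = 1 ∧ μ (Metric.closedBall x₀ r)ᶜ = 0 ∧ Hered μ := by
  letI : MeasurableSpace Z := wB Z
  letI : MeasurableSpace X := wB X
  haveI : IsProbabilityMeasure m := ⟨hm1⟩
  obtain ⟨D, hD, hD0, hDE⟩ := exhaust (wB_le (X := Z)) m hm
  -- a ball
  have hball : ∃ n : ℕ, m (D ∩ Metric.closedBall 0 (n : ℝ)) ≠ 0 := by
    by_contra hcon
    push Not at hcon
    apply hD0
    have h1 : D = ⋃ n : ℕ, D ∩ Metric.closedBall (0 : Z) (n : ℝ) := by
      rw [← inter_iUnion, Metric.iUnion_closedBall_nat, inter_univ]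
    rw [h1]
    exact measure_iUnion_null hcon
  obtain ⟨n, hn⟩ := hball
  set B : Set Z := D ∩ Metric.closedBall 0 (n : ℝ) with hB
  have hBm : MeasurableSet B :=
    hD.inter (meas_of_convex (convex_closedBall _ _) Metric.isClosed_closedBall)
  -- the scaled embedding
  set ε : ℝ := r / ((n + 1) * (‖T‖ + 1)) with hε
  have hn1 : (0 : ℝ) < n + 1 := by positivity
  have hT1 : 0 < ‖T‖ + 1 := by positivity
  have hε0 : 0 < ε := by positivity
  have hT' : ∀ z, (ε * c) * ‖z‖ ≤ ‖(ε • T) z‖ := by
    intro z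
    rw [ContinuousLinearMap.smul_apply, norm_smul, Real.norm_eq_abs, abs_of_pos hε0, mul_assoc]
    exact mul_le_mul_of_nonneg_left (hT z) hε0.le
  have he1 := emb_weak (ε • T) (mul_pos hε0 hc) hT' x₀
  have he2 := emb_norm (ε • T) (mul_pos hε0 hc) hT' x₀
  set Φ : Z → X := aff (ε • T) x₀ with hΦ
  have hBt : m B ≠ ∞ := measure_ne_top _ _
  have hmap : ∀ E : Set X, MeasurableSet E → ((m B)⁻¹ • (m.restrict B).map Φ) E =
      (m B)⁻¹ * m (Φ ⁻¹' E ∩ B) := by
    intro E hE
    rw [Measure.smul_apply, smul_eq_mul, he1.map_apply,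
      Measure.restrict_apply (he1.measurable hE)]
  refine ⟨(m B)⁻¹ • (m.restrict B).map Φ, ?_, ?_, ?_⟩
  · rw [hmap univ MeasurableSet.univ, preimage_univ, univ_inter]
    exact ENNReal.inv_mul_cancel hn hBt
  · have hcl : MeasurableSet (Metric.closedBall x₀ r)ᶜ :=
      (meas_of_convex (convex_closedBall _ _) Metric.isClosed_closedBall).compl
    rw [hmap _ hcl]
    have h1 : Φ ⁻¹' (Metric.closedBall x₀ r)ᶜ ∩ B = ∅ := by
      ext z
      simp only [mem_inter_iff, mem_preimage, mem_compl_iff, mem_empty_iff_false, iff_false,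
        not_and]
      intro hz hzB
      apply hz
      have h2 : ‖z‖ ≤ n := by
        have := hzB.2
        rwa [Metric.mem_closedBall, dist_zero_right] at this
      rw [Metric.mem_closedBall, dist_eq_norm, hΦ, aff, add_sub_cancel_left,
        ContinuousLinearMap.smul_apply, norm_smul, Real.norm_eq_abs, abs_of_pos hε0]
      calc ε * ‖T z‖ ≤ ε * ((‖T‖ + 1) * (n + 1)) := by
            refine mul_le_mul_of_nonneg_left ?_ hε0.le
            calc ‖T z‖ ≤ ‖T‖ * ‖z‖ := T.le_opNorm z
              _ ≤ (‖T‖ + 1) * (n + 1) :=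
                mul_le_mul (by linarith) (by linarith) (norm_nonneg _) hT1.le
        _ = r := by rw [hε]; field_simp
    rw [h1, measure_empty, mul_zero]
  · intro E hE hE0 ν hν
    rw [hmap E hE] at hE0
    have hE1 : m (Φ ⁻¹' E ∩ B) ≠ 0 := fun h => hE0 (by rw [h, mul_zero])
    have hset : Φ ⁻¹' E ∩ B = D ∩ (Metric.closedBall 0 (n : ℝ) ∩ Φ ⁻¹' E) := by
      rw [hB, inter_comm, inter_assoc]
    have hE' : MeasurableSet (Metric.closedBall (0 : Z) (n : ℝ) ∩ Φ ⁻¹' E) :=
      (meas_of_convex (convex_closedBall _ _) Metric.isClosed_closedBall).inter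
        (he1.measurable hE)
    refine hDE _ hE' (by rw [← hset]; exact hE1) ?_
    rw [← hset, ← Measure.restrict_restrict (he1.measurable hE)]
    refine transfer he1 he2 (m.restrict B) hE ?_
    refine ⟨(m B) • ν, fun F hF => ?_⟩
    have h3 : ((m B) • ν) F = m B * ν F := rfl
    rw [h3, hν F hF, hmap _ (hF.inter hE), ← mul_assoc, ENNReal.mul_inv_cancel hn hBt, one_mul,
      Measure.restrict_apply hF, he1.map_apply,
      Measure.restrict_apply (he1.measurable (hF.inter hE))]

/-- the norm Borel subsets of a separable closed convex set are weakly Borel -/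
lemma sep_meas {L : Set X} (hL1 : Convex ℝ L) (hL2 : IsClosed L)
    (hL3 : TopologicalSpace.IsSeparable L) {F : Set X} (hF : MeasurableSet[borel X] F) :
    MeasurableSet[wB X] (F ∩ L) := by
  letI : MeasurableSpace X := wB X
  have hLm : MeasurableSet L := meas_of_convex hL1 hL2
  obtain ⟨Q, hQ, hLQ⟩ := hL3
  refine MeasurableSpace.generateFrom_induction {s : Set X | IsOpen s}
    (fun F _ => MeasurableSet (F ∩ L)) ?_ ?_ ?_ ?_ F hF
  · intro U hU _
    have h1 : U ∩ L = (⋃ q ∈ Q, ⋃ n : ℕ, ⋃ _ : Metric.closedBall q (1 / ((n : ℝ) + 1)) ⊆ U,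
        Metric.closedBall q (1 / ((n : ℝ) + 1))) ∩ L := by
      ext x
      simp only [mem_inter_iff, mem_iUnion, exists_prop]
      constructor
      · rintro ⟨hxU, hxL⟩
        refine ⟨?_, hxL⟩
        obtain ⟨δ, hδ, hδU⟩ := Metric.isOpen_iff.mp hU x hxU
        obtain ⟨n, hn⟩ := exists_nat_one_div_lt (half_pos hδ)
        have hpos : (0 : ℝ) < 1 / ((n : ℝ) + 1) := by positivity
        obtain ⟨q, hq, hxq⟩ := Metric.mem_closure_iff.mp (hLQ hxL) _ hpos
        refine ⟨q, hq, n, fun y hy => hδU ?_, ?_⟩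
        · rw [Metric.mem_closedBall] at hy
          rw [Metric.mem_ball]
          calc dist y x ≤ dist y q + dist q x := dist_triangle _ _ _
            _ < δ := by rw [dist_comm q x]; linarith
        · rw [Metric.mem_closedBall]
          exact hxq.le
      · rintro ⟨⟨q, -, n, hqU, hx⟩, hxL⟩
        exact ⟨hqU hx, hxL⟩
    rw [h1]
    refine MeasurableSet.inter ?_ hLm
    refine MeasurableSet.biUnion hQ fun q _ => MeasurableSet.iUnion fun n =>
      MeasurableSet.iUnion fun _ => ?_
    exact meas_of_convex (convex_closedBall _ _) Metric.isClosed_closedBall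
  · simp
  · intro F _ hF'
    have h1 : Fᶜ ∩ L = L \ (F ∩ L) := by
      ext x
      simp only [mem_inter_iff, mem_compl_iff, Set.mem_sdiff]
      tauto
    rw [h1]
    exact hLm.diff hF'
  · intro s _ hs
    rw [iUnion_inter]
    exact MeasurableSet.iUnion hs

/-- separable sets are null for hereditarily non-extendable measures -/
theorem sep_null {μ : @Measure X (wB X)} (hμ : Hered μ) {S : Set X}
    (hS : TopologicalSpace.IsSeparable S) :
    ∃ L : Submodule ℝ X, S ⊆ L ∧ IsClosed (L : Set X) ∧ MeasurableSet[wB X] (L : Set X) ∧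
      μ L = 0 := by
  letI : MeasurableSpace X := wB X
  set L : Submodule ℝ X := (Submodule.span ℝ S).topologicalClosure with hL
  have hcl : IsClosed (L : Set X) := Submodule.isClosed_topologicalClosure _
  have hconv : Convex ℝ (L : Set X) := L.convex
  have hsep : TopologicalSpace.IsSeparable (L : Set X) := by
    rw [hL, Submodule.topologicalClosure_coe]
    exact (hS.span (R := ℝ)).closure
  have hLm : MeasurableSet (L : Set X) := meas_of_convex hconv hcl
  refine ⟨L, fun x hx => Submodule.le_topologicalClosure _ (Submodule.subset_span hx), hcl, hLm, ?_⟩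
  by_contra h0
  classical
  let g : X → X := fun x => if x ∈ (L : Set X) then x else 0
  have hgL : ∀ F : Set X, g ⁻¹' F ∩ L = F ∩ L := by
    intro F
    ext x
    simp only [mem_inter_iff, mem_preimage]
    constructor
    · rintro ⟨h1, h2⟩
      have : g x = x := if_pos h2
      rw [this] at h1
      exact ⟨h1, h2⟩
    · rintro ⟨h1, h2⟩
      have : g x = x := if_pos h2
      rw [this]
      exact ⟨h1, h2⟩
  have hg : @Measurable X X (wB X) (borel X) g := by
    intro F hF
    have h1 : g ⁻¹' F = (g ⁻¹' F ∩ L) ∪ (g ⁻¹' F ∩ (L : Set X)ᶜ) := (inter_union_compl _ _).symm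
    rw [h1, hgL F]
    refine (sep_meas hconv hcl hsep hF).union ?_
    by_cases h2 : (0 : X) ∈ F
    · have h3 : g ⁻¹' F ∩ (L : Set X)ᶜ = (L : Set X)ᶜ := by
        refine inter_eq_right.mpr fun x hx => ?_
        change g x ∈ F
        have : g x = 0 := if_neg hx
        rwa [this]
      rw [h3]
      exact hLm.compl
    · have h3 : g ⁻¹' F ∩ (L : Set X)ᶜ = ∅ := by
        ext x
        simp only [mem_inter_iff, mem_preimage, mem_compl_iff, mem_empty_iff_false, iff_false,
          not_and, not_not]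
        intro h4
        by_contra h5
        have : g x = 0 := if_neg h5
        rw [this] at h4
        exact h2 h4
      rw [h3]
      exact MeasurableSet.empty
  refine hμ L hLm h0 (@Measure.map X X (wB X) (borel X) g (μ.restrict L)) fun F hF => ?_
  rw [@Measure.map_apply X X (wB X) (borel X) _ g hg F (wB_le F hF)]
  rw [Measure.restrict_apply (hg (wB_le F hF)), hgL F]

end

end Pool.Agent.Y264.WB
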