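import Pool.Agent.Y264.WB.Comp

/-!
# The theorem for all spaces which contain `ℓ^∞`
-/

set_option autoImplicit false

open MeasureTheory Set Filter Topology
open scoped ENNReal

namespace Pool.Agent.Y264.WB

theorem top (X : Type) [NormedAddCommGroup X] [NormedSpace ℝ X]
    (T : lp (fun _ : ℕ => ℝ) ∞ →L[ℝ] X) {c : ℝ} (hc : 0 < c) (hT : ∀ z, c * ‖z‖ ≤ ‖T z‖)
    (x₀ : X) {r : ℝ} (hr : 0 < r) :
    ∃ μ : @Measure X (wB X), μ univ = 1 ∧ μ (Metric.closedBall x₀ r)ᶜ = 0 ∧ Hered μ ∧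
      (∀ S : Set X, TopologicalSpace.IsSeparable S →
        ∃ L : Submodule ℝ X, S ⊆ L ∧ IsClosed (L : Set X) ∧ μ L = 0) ∧
      ∀ K : Set X, IsCompact (toWeakSpace ℝ X '' K) → μ K = 0 := by
  obtain ⟨m0, h1, h2⟩ := base
  obtain ⟨m, hm1, hmb, hmH⟩ := main m0 h1 h2
    (ContinuousLinearMap.id ℝ (lp (fun _ : ℕ => ℝ) ∞)) one_pos
    (fun z => by rw [one_mul]; rfl) 0 one_pos
  have hK : ∀ K : Set (lp (fun _ : ℕ => ℝ) ∞), @IsCompact _ (wt _) K → m K = 0 := by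
    intro K hK
    have h3 := sep_of_compact (fun n => Pool.Agent.TH784.WB.evn n) (fun z hz => by
      ext n
      exact hz n) hK
    obtain ⟨L, hKL, -, -, hL0⟩ := sep_null hmH h3
    letI : MeasurableSpace (lp (fun _ : ℕ => ℝ) ∞) := wB _
    exact measure_mono_null hKL hL0
  obtain ⟨μ, hμ1, hμb, hμH, hμK⟩ := image hm1 hmb hmH hK T hc hT x₀ hr
  refine ⟨μ, hμ1, hμb, hμH, fun S hS => ?_, hμK⟩
  obtain ⟨L, hSL, hLc, -, hL0⟩ := sep_null hμH hS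
  exact ⟨L, hSL, hLc, hL0⟩

end Pool.Agent.Y264.WB
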