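import Pool.Agent.Y264.WB.Ext

/-!
# Weakly Borel sets and embeddings of Banach spaces
-/

set_option autoImplicit false

open MeasureTheory Set Filter Topology
open scoped ENNReal

namespace Pool.Agent.Y264.WB

/-- the sigma-algebra generated by the weakly open sets -/
@[instance_reducible]
def wB (X : Type) [NormedAddCommGroup X] [NormedSpace ℝ X] : MeasurableSpace X :=
  MeasurableSpace.generateFrom {U : Set X | IsOpen (toWeakSpace ℝ X '' U)}

/-- the weak topology on the space itself -/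
@[reducible]
noncomputable def wt (X : Type) [NormedAddCommGroup X] [NormedSpace ℝ X] : TopologicalSpace X :=
  TopologicalSpace.induced (toWeakSpace ℝ X) inferInstance

section

variable {X : Type} [NormedAddCommGroup X] [NormedSpace ℝ X]

lemma open_iff (U : Set X) : IsOpen[wt X] U ↔ IsOpen (toWeakSpace ℝ X '' U) := by
  rw [isOpen_induced_iff]
  constructor
  · rintro ⟨V, hV, rfl⟩
    rwa [image_preimage_eq V (toWeakSpace ℝ X).surjective]
  · intro h
    exact ⟨_, h, preimage_image_eq U (toWeakSpace ℝ X).injective⟩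

lemma wB_eq : wB X = @borel X (wt X) := by
  unfold wB borel
  congr 1
  ext U
  exact (open_iff U).symm

lemma wt_eq : wt X = ⨅ f : StrongDual ℝ X, TopologicalSpace.induced (fun x : X => f x)
    (inferInstance : TopologicalSpace ℝ) := by
  have h : wt X = TopologicalSpace.induced (fun (x : X) (f : StrongDual ℝ X) => f x)
      Pi.topologicalSpace := by
    have h0 : (inferInstance : TopologicalSpace (WeakSpace ℝ X)) =
        TopologicalSpace.induced (fun (x : WeakBilin (topDualPairing ℝ X).flip)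
          (f : StrongDual ℝ X) => (topDualPairing ℝ X).flip x f) Pi.topologicalSpace := rfl
    rw [wt, h0]
    exact induced_compose
  rw [h]
  unfold Pi.topologicalSpace
  rw [induced_iInf]
  simp only [induced_compose]
  rfl

lemma norm_le_wt : (inferInstance : TopologicalSpace X) ≤ wt X := by
  rw [wt_eq]
  refine le_iInf fun f => ?_
  exact continuous_iff_le_induced.mp f.continuous

lemma wB_le : wB X ≤ borel X := by
  rw [wB_eq]
  exact borel_anti norm_le_wt

lemma closed_of_convex {S : Set X} (h1 : Convex ℝ S) (h2 : IsClosed S) : IsClosed[wt X] S := by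
  rw [← @isOpen_compl_iff X _ (wt X), open_iff]
  have h3 : toWeakSpace ℝ X '' Sᶜ = (toWeakSpace ℝ X '' S)ᶜ :=
    image_compl_eq (toWeakSpace ℝ X).bijective
  rw [h3, isOpen_compl_iff]
  have h4 := h1.toWeakSpace_closure ℝ
  rw [h2.closure_eq] at h4
  rw [h4]
  exact isClosed_closure

lemma meas_of_convex {S : Set X} (h1 : Convex ℝ S) (h2 : IsClosed S) :
    MeasurableSet[wB X] S := by
  rw [wB_eq]
  exact @IsClosed.measurableSet X S (wt X) (@borel X (wt X))
    (@BorelSpace.opensMeasurable X (wt X) (@borel X (wt X))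
      (@BorelSpace.mk X (wt X) (@borel X (wt X)) rfl))
    (closed_of_convex h1 h2)

variable {Z : Type} [NormedAddCommGroup Z] [NormedSpace ℝ Z]

lemma ext_dual (T : Z →L[ℝ] X) {c : ℝ} (hc : 0 < c) (hT : ∀ z, c * ‖z‖ ≤ ‖T z‖)
    (f : StrongDual ℝ Z) : ∃ g : StrongDual ℝ X, ∀ z, g (T z) = f z := by
  have hinj : Function.Injective T := by
    intro a b hab
    have h1 := hT (a - b)
    rw [map_sub, hab, sub_self, norm_zero] at h1
    have h2 : ‖a - b‖ ≤ 0 := by
      by_contra h
      push Not at h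
      have := mul_pos hc h
      linarith
    exact sub_eq_zero.mp (norm_le_zero_iff.mp h2)
  let e : Z ≃ₗ[ℝ] T.toLinearMap.range := LinearEquiv.ofInjective T.toLinearMap hinj
  let f0 : T.toLinearMap.range →ₗ[ℝ] ℝ := f.toLinearMap ∘ₗ e.symm.toLinearMap
  let f1 : StrongDual ℝ T.toLinearMap.range := f0.mkContinuous (‖f‖ * c⁻¹) (by
    intro y
    have h1 : T (e.symm y) = y := by
      have := e.apply_symm_apply y
      exact congrArg Subtype.val this
    have h2 := hT (e.symm y)
    rw [h1] at h2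
    have h3 : ‖e.symm y‖ ≤ c⁻¹ * ‖(y : X)‖ := by
      rw [inv_mul_eq_div, le_div_iff₀ hc, mul_comm]
      exact h2
    calc ‖f0 y‖ = ‖f (e.symm y)‖ := rfl
      _ ≤ ‖f‖ * ‖e.symm y‖ := f.le_opNorm _
      _ ≤ ‖f‖ * (c⁻¹ * ‖(y : X)‖) := mul_le_mul_of_nonneg_left h3 (norm_nonneg _)
      _ = ‖f‖ * c⁻¹ * ‖y‖ := by rw [mul_assoc]; rfl)
  obtain ⟨g, hg, -⟩ := exists_extension_norm_eq _ f1
  refine ⟨g, fun z => ?_⟩
  have h1 := hg (e z)
  have h2 : ((e z : T.toLinearMap.range) : X) = T z := rfl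
  rw [h2] at h1
  rw [h1]
  change f (e.symm (e z)) = f z
  rw [e.symm_apply_apply]

/-- the affine embedding -/
def aff (T : Z →L[ℝ] X) (x₀ : X) (z : Z) : X := x₀ + T z

lemma aff_wt (T : Z →L[ℝ] X) {c : ℝ} (hc : 0 < c) (hT : ∀ z, c * ‖z‖ ≤ ‖T z‖) (x₀ : X) :
    wt Z = TopologicalSpace.induced (aff T x₀) (wt X) := by
  have hg : ∀ g : StrongDual ℝ X, TopologicalSpace.induced (fun z => g (aff T x₀ z))
      (inferInstance : TopologicalSpace ℝ) = TopologicalSpace.induced (fun z => g (T z))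
      (inferInstance : TopologicalSpace ℝ) := by
    intro g
    have h1 : (fun z => g (aff T x₀ z)) = (fun t : ℝ => g x₀ + t) ∘ fun z => g (T z) := by
      funext z
      simp [aff]
    rw [h1, ← induced_compose]
    congr 1
    exact ((Homeomorph.addLeft (g x₀)).isInducing.eq_induced).symm
  rw [wt_eq (X := X), induced_iInf]
  simp only [induced_compose]
  have h2 : (⨅ g : StrongDual ℝ X, TopologicalSpace.induced ((fun x : X => g x) ∘ aff T x₀)
      (inferInstance : TopologicalSpace ℝ)) = ⨅ g : StrongDual ℝ X,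
      TopologicalSpace.induced (fun z => g (T z)) (inferInstance : TopologicalSpace ℝ) :=
    iInf_congr fun g => hg g
  rw [h2, wt_eq (X := Z)]
  refine le_antisymm (le_iInf fun g => ?_) (le_iInf fun f => ?_)
  · exact iInf_le (fun f : StrongDual ℝ Z => TopologicalSpace.induced (fun z : Z => f z)
      (inferInstance : TopologicalSpace ℝ)) (g.comp T)
  · obtain ⟨g, hg⟩ := ext_dual T hc hT f
    have h3 := iInf_le (fun g : StrongDual ℝ X => TopologicalSpace.induced (fun z => g (T z))
      (inferInstance : TopologicalSpace ℝ)) g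
    simp only [hg] at h3
    exact h3

lemma aff_inj (T : Z →L[ℝ] X) {c : ℝ} (hc : 0 < c) (hT : ∀ z, c * ‖z‖ ≤ ‖T z‖) (x₀ : X) :
    Function.Injective (aff T x₀) := by
  intro a b hab
  have h0 : T a = T b := add_left_cancel hab
  have h1 := hT (a - b)
  rw [map_sub, h0, sub_self, norm_zero] at h1
  have h2 : ‖a - b‖ ≤ 0 := by
    by_contra h
    push Not at h
    have := mul_pos hc h
    linarith
  exact sub_eq_zero.mp (norm_le_zero_iff.mp h2)

lemma aff_norm [CompleteSpace Z] (T : Z →L[ℝ] X) {c : ℝ} (hc : 0 < c)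
    (hT : ∀ z, c * ‖z‖ ≤ ‖T z‖) (x₀ : X) : IsClosedEmbedding (aff T x₀) := by
  have h1 : AntilipschitzWith (Real.toNNReal c⁻¹) T := by
    refine T.antilipschitz_of_bound fun z => ?_
    rw [Real.coe_toNNReal _ (inv_nonneg.mpr hc.le), inv_mul_eq_div, le_div_iff₀ hc, mul_comm]
    exact hT z
  have h2 : IsClosedEmbedding T := h1.isClosedEmbedding T.uniformContinuous
  exact (Homeomorph.addLeft x₀).isClosedEmbedding.comp h2

lemma aff_convex (T : Z →L[ℝ] X) (x₀ : X) : Convex ℝ (range (aff T x₀)) := by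
  have h1 : range (aff T x₀) = (fun x => x₀ + x) '' (range T) := by
    rw [← range_comp]
    rfl
  rw [h1]
  have h2 : Convex ℝ (range T) := by
    rw [← image_univ]
    exact convex_univ.linear_image T.toLinearMap
  exact h2.translate x₀

lemma emb_norm [CompleteSpace Z] (T : Z →L[ℝ] X) {c : ℝ} (hc : 0 < c)
    (hT : ∀ z, c * ‖z‖ ≤ ‖T z‖) (x₀ : X) :
    @MeasurableEmbedding Z X (borel Z) (borel X) (aff T x₀) := by
  letI : MeasurableSpace Z := borel Z
  letI : MeasurableSpace X := borel X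
  haveI : BorelSpace Z := ⟨rfl⟩
  haveI : BorelSpace X := ⟨rfl⟩
  exact (aff_norm T hc hT x₀).measurableEmbedding

lemma emb_wt [CompleteSpace Z] (T : Z →L[ℝ] X) {c : ℝ} (hc : 0 < c)
    (hT : ∀ z, c * ‖z‖ ≤ ‖T z‖) (x₀ : X) :
    @IsClosedEmbedding Z X (wt Z) (wt X) (aff T x₀) := by
  refine @IsClosedEmbedding.mk Z X (wt Z) (wt X) _
    (@IsEmbedding.mk Z X (wt Z) (wt X) _ (@IsInducing.mk Z X (wt Z) (wt X) _
      (aff_wt T hc hT x₀)) (aff_inj T hc hT x₀)) ?_
  exact closed_of_convex (aff_convex T x₀) (aff_norm T hc hT x₀).isClosed_range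

lemma emb_weak [CompleteSpace Z] (T : Z →L[ℝ] X) {c : ℝ} (hc : 0 < c)
    (hT : ∀ z, c * ‖z‖ ≤ ‖T z‖) (x₀ : X) :
    @MeasurableEmbedding Z X (wB Z) (wB X) (aff T x₀) := by
  rw [wB_eq (X := Z), wB_eq (X := X)]
  exact @IsClosedEmbedding.measurableEmbedding Z X (wt Z) (@borel Z (wt Z))
    (@BorelSpace.mk Z (wt Z) (@borel Z (wt Z)) rfl) (wt X) (@borel X (wt X))
    (@BorelSpace.mk X (wt X) (@borel X (wt X)) rfl) _ (emb_wt T hc hT x₀)

end

end Pool.Agent.Y264.WB
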